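import Mathlib

/-!
# CRK5: a Crocker type construction for powers of 5 (MP_68fb2d_nt)

An odd number `P` and an odd number `M` such that for every odd `m` which is not a multiple of `P`
some prime `q = 3 mod 4` has odd valuation `w` in `5 ^ m + 1` and `q ^ (w + 1)` divides `M`.
-/

set_option autoImplicit false

open Finset

namespace Pool.Agent.CRK5

/-- the invariant of the construction -/
def Pre (P M : ℕ) : Prop :=
  Odd P ∧ Odd M ∧
  (∀ p, p.Prime → p ∣ P → p ∣ 5 ^ P + 1 ∧ Even (padicValNat p (5 ^ P + 1))) ∧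
  (∀ m, Odd m → ¬ P ∣ m → ∃ q, q.Prime ∧ q % 4 = 3 ∧ Odd (padicValNat q (5 ^ m + 1)) ∧
    q ^ (padicValNat q (5 ^ m + 1) + 1) ∣ M)

theorem lte (q P k : ℕ) (hq : q.Prime) (h2 : q ≠ 2) (hd : q ∣ 5 ^ P + 1) (hk : Odd k) :
    padicValNat q (5 ^ (P * k) + 1) = padicValNat q (5 ^ P + 1) + padicValNat q k := by
  have : Fact q.Prime := ⟨hq⟩
  have hodd : Odd q := hq.odd_of_ne_two h2
  have hx : ¬ q ∣ 5 ^ P := by
    intro h
    have h1 : q ∣ 1 := (Nat.dvd_add_right h).1 hd
    exact hq.one_lt.ne' (Nat.dvd_one.1 h1)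
  have h := padicValNat.pow_add_pow (p := q) (x := 5 ^ P) (y := 1) hodd hd hx hk
  rw [one_pow, ← pow_mul] at h
  exact h

theorem base : Pre 1 1 := by
  refine ⟨odd_one, odd_one, ?_, ?_⟩
  · intro p hp h
    exact absurd (Nat.dvd_one.1 h) hp.one_lt.ne'
  · intro m _ h
    exact absurd (one_dvd m) h

theorem step (P M q : ℕ) (h : Pre P M) (hq : q.Prime) (h4 : q % 4 = 3)
    (ho : Odd (padicValNat q (5 ^ P + 1))) :
    ¬ q ∣ P ∧ Pre (P * q) (M * q ^ (padicValNat q (5 ^ P + 1) + 1)) := by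
  have : Fact q.Prime := ⟨hq⟩
  obtain ⟨hP, hM, h1, h2⟩ := h
  have hq2 : q ≠ 2 := by
    rintro rfl
    norm_num at h4
  have hqo : Odd q := hq.odd_of_ne_two hq2
  have hqd : q ∣ 5 ^ P + 1 := by
    apply dvd_of_one_le_padicValNat
    exact ho.pos
  have hqP : ¬ q ∣ P := by
    intro hd
    exact (Nat.not_even_iff_odd.2 ho) (h1 q hq hd).2
  refine ⟨hqP, hP.mul hqo, hM.mul hqo.pow, ?_, ?_⟩
  · intro p hp hd
    rcases (hp.dvd_mul).1 hd with hd | hd
    · have hp2 : p ≠ 2 := by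
        rintro rfl
        exact (Nat.not_even_iff_odd.2 hP) (even_iff_two_dvd.2 hd)
      have hpq : ¬ p ∣ q := by
        intro h3
        have := (Nat.prime_dvd_prime_iff_eq hp hq).1 h3
        exact hqP (this ▸ hd)
      obtain ⟨h5, h6⟩ := h1 p hp hd
      refine ⟨?_, ?_⟩
      · have h7 : 5 ^ P + 1 ∣ (5 ^ P) ^ q + 1 ^ q := hqo.nat_add_dvd_pow_add_pow _ _
        rw [one_pow, ← pow_mul] at h7
        exact h5.trans h7
      · rw [lte p P q hp hp2 h5 hqo, padicValNat.eq_zero_of_not_dvd hpq, add_zero]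
        exact h6
    · have hpq := (Nat.prime_dvd_prime_iff_eq hp hq).1 hd
      subst hpq
      refine ⟨?_, ?_⟩
      · have h7 : 5 ^ P + 1 ∣ (5 ^ P) ^ p + 1 ^ p := hqo.nat_add_dvd_pow_add_pow _ _
        rw [one_pow, ← pow_mul] at h7
        exact hqd.trans h7
      · rw [lte p P p hp hq2 hqd hqo, padicValNat_self]
        exact ho.add_odd odd_one
  · intro m hm hd
    by_cases hPm : P ∣ m
    · obtain ⟨k, rfl⟩ := hPm
      have hk : Odd k := (Nat.odd_mul.1 hm).2
      have hqk : ¬ q ∣ k := fun h3 => hd (Nat.mul_dvd_mul_left P h3)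
      have h3 : padicValNat q (5 ^ (P * k) + 1) = padicValNat q (5 ^ P + 1) := by
        rw [lte q P k hq hq2 hqd hk, padicValNat.eq_zero_of_not_dvd hqk, add_zero]
      refine ⟨q, hq, h4, ?_, ?_⟩
      · rw [h3]
        exact ho
      · rw [h3]
        exact dvd_mul_left _ _
    · obtain ⟨r, hr, hr4, hro, hrd⟩ := h2 m hm hPm
      exact ⟨r, hr, hr4, hro, hrd.mul_right _⟩

theorem exists_q (P : ℕ) (hP : Odd P) :
    ∃ q, q.Prime ∧ q % 4 = 3 ∧ Odd (padicValNat q (5 ^ P + 1)) := by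
  by_contra hcon
  push Not at hcon
  have h : ∃ x y, 5 ^ P + 1 = x ^ 2 + y ^ 2 := by
    rw [Nat.eq_sq_add_sq_iff]
    intro q hq h4
    have := hcon q (Nat.prime_of_mem_primeFactors hq) h4
    exact Nat.not_odd_iff_even.1 this
  obtain ⟨x, y, hxy⟩ := h
  obtain ⟨k, rfl⟩ := hP
  have h5 : 5 ^ (2 * k + 1) % 8 = 5 := by
    rw [pow_succ, pow_mul, Nat.mul_mod, Nat.pow_mod]
    norm_num
  have h6 : (x ^ 2 + y ^ 2) % 8 = 6 := by
    rw [← hxy]
    generalize 5 ^ (2 * k + 1) = z at h5 ⊢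
    omega
  rw [Nat.add_mod, Nat.pow_mod x, Nat.pow_mod y] at h6
  have hx : x % 8 < 8 := Nat.mod_lt _ (by norm_num)
  have hy : y % 8 < 8 := Nat.mod_lt _ (by norm_num)
  generalize x % 8 = u at *
  generalize y % 8 = v at *
  interval_cases u <;> interval_cases v <;> simp at h6

/-- the invariant with the bound -/
def Inv (P M : ℕ) : Prop := Pre P M ∧ 21 ∣ P ∧ M ≤ 5 ^ P

theorem inv_base : Inv 21 441 := by
  have h3 : padicValNat 3 (5 ^ 1 + 1) = 1 := by
    rw [show 5 ^ 1 + 1 = 3 * 2 by norm_num, padicValNat.mul (by norm_num) (by norm_num),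
      padicValNat_self, padicValNat.eq_zero_of_not_dvd (by norm_num)]
  have h7 : padicValNat 7 (5 ^ 3 + 1) = 1 := by
    have : Fact (Nat.Prime 7) := ⟨by norm_num⟩
    rw [show 5 ^ 3 + 1 = 7 * 18 by norm_num, padicValNat.mul (by norm_num) (by norm_num),
      padicValNat_self, padicValNat.eq_zero_of_not_dvd (by norm_num)]
  have s1 := (step 1 1 3 base (by norm_num) (by norm_num) (by rw [h3]; exact odd_one)).2
  rw [h3] at s1
  norm_num at s1
  have s2 := (step 3 9 7 s1 (by norm_num) (by norm_num) (by rw [h7]; exact odd_one)).2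
  rw [h7] at s2
  norm_num at s2
  exact ⟨s2, dvd_refl _, by norm_num⟩

theorem q_ge (P M q : ℕ) (h : Inv P M) (hq : q.Prime) (h4 : q % 4 = 3)
    (ho : Odd (padicValNat q (5 ^ P + 1))) : 11 ≤ q := by
  have hqP := (step P M q h.1 hq h4 ho).1
  by_contra hlt
  push Not at hlt
  have h21 := h.2.1
  interval_cases q
  all_goals first
    | omega
    | (exact hqP ((by norm_num : (3 : ℕ) ∣ 21).trans h21))
    | (exact hqP ((by norm_num : (7 : ℕ) ∣ 21).trans h21))

theorem bound (P M q : ℕ) (h : Inv P M) (_hq : q.Prime)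
    (ho : Odd (padicValNat q (5 ^ P + 1))) :
    M * q ^ (padicValNat q (5 ^ P + 1) + 1) ≤ 5 ^ (5 * P) := by
  have hP : 1 ≤ P := h.1.1.pos
  have h1 : q ^ padicValNat q (5 ^ P + 1) ≤ 5 ^ P + 1 :=
    Nat.le_of_dvd (Nat.succ_pos _) pow_padicValNat_dvd
  have h2 : q ≤ 5 ^ P + 1 :=
    Nat.le_of_dvd (Nat.succ_pos _) (dvd_of_one_le_padicValNat ho.pos)
  have h3 : 5 ^ P + 1 ≤ 5 ^ (2 * P) := by
    have h4 : 5 ^ 1 ≤ 5 ^ P := Nat.pow_le_pow_right (by norm_num) hP
    rw [two_mul, pow_add]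
    nlinarith
  rw [pow_succ]
  calc M * (q ^ padicValNat q (5 ^ P + 1) * q)
      ≤ 5 ^ P * (5 ^ (2 * P) * 5 ^ (2 * P)) :=
        Nat.mul_le_mul h.2.2 (Nat.mul_le_mul (h1.trans h3) (h2.trans h3))
    _ = 5 ^ (5 * P) := by
        rw [← pow_add, ← pow_add]
        congr 1
        ring

theorem inv_step (P M q : ℕ) (h : Inv P M) (hq : q.Prime) (h4 : q % 4 = 3)
    (ho : Odd (padicValNat q (5 ^ P + 1))) :
    Inv (P * q) (M * q ^ (padicValNat q (5 ^ P + 1) + 1)) := by
  refine ⟨(step P M q h.1 hq h4 ho).2, h.2.1.mul_right q, ?_⟩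
  have h11 := q_ge P M q h hq h4 ho
  refine (bound P M q h hq ho).trans (Nat.pow_le_pow_right (by norm_num) ?_)
  nlinarith

theorem grow (x0 : ℕ) : ∃ P M, Inv P M ∧ x0 ≤ P := by
  induction x0 with
  | zero => exact ⟨21, 441, inv_base, Nat.zero_le _⟩
  | succ k ih =>
    obtain ⟨P, M, h, hk⟩ := ih
    obtain ⟨q, hq, h4, ho⟩ := exists_q P h.1.1
    refine ⟨_, _, inv_step P M q h hq h4 ho, ?_⟩
    have hP : 1 ≤ P := h.1.1.pos
    have h2 := hq.two_le
    nlinarith

/-- a stage with a large prime -/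
def Good (B x0 : ℕ) : Prop := ∃ P M q, Inv P M ∧ x0 ≤ P ∧ q.Prime ∧ q % 4 = 3 ∧
  Odd (padicValNat q (5 ^ P + 1)) ∧ B < q

theorem good_or (B x0 J : ℕ) : Good B x0 ∨ ∃ P M, Inv P M ∧ x0 ≤ P ∧
    J ≤ (P.primeFactors.filter (fun p => p ≤ B)).card := by
  induction J with
  | zero =>
    obtain ⟨P, M, h, hk⟩ := grow x0
    exact Or.inr ⟨P, M, h, hk, Nat.zero_le _⟩
  | succ k ih =>
    rcases ih with ih | ⟨P, M, h, hx, hk⟩
    · exact Or.inl ih
    · obtain ⟨q, hq, h4, ho⟩ := exists_q P h.1.1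
      by_cases hB : B < q
      · exact Or.inl ⟨P, M, q, h, hx, hq, h4, ho, hB⟩
      · right
        have hqP := (step P M q h.1 hq h4 ho).1
        have hP : P ≠ 0 := h.1.1.pos.ne'
        refine ⟨_, _, inv_step P M q h hq h4 ho, ?_, ?_⟩
        · have h2 := hq.two_le
          nlinarith
        · have hins : (P * q).primeFactors.filter (fun p => p ≤ B) =
              insert q (P.primeFactors.filter (fun p => p ≤ B)) := by
            rw [Nat.primeFactors_mul hP hq.ne_zero, hq.primeFactors, filter_union,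
              filter_singleton, if_pos (not_lt.1 hB), union_comm]
            rfl
          rw [hins, card_insert_of_notMem]
          · omega
          · intro hmem
            exact hqP (Nat.dvd_of_mem_primeFactors (mem_filter.1 hmem).1)

theorem good (B x0 : ℕ) : Good B x0 := by
  rcases good_or B x0 (B + 1) with h | ⟨P, M, -, -, h⟩
  · exact h
  · exfalso
    have h1 : (P.primeFactors.filter (fun p => p ≤ B)) ⊆ Icc 1 B := by
      intro p hp
      rw [mem_filter] at hp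
      rw [mem_Icc]
      exact ⟨(Nat.prime_of_mem_primeFactors hp.1).one_le, hp.2⟩
    have h2 := card_le_card h1
    rw [Nat.card_Icc] at h2
    omega

end Pool.Agent.CRK5
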